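import Pool.Agent.H316R3.Cog.Riesz

set_option autoImplicit false
open MeasureTheory Set Filter Topology intervalIntegral

namespace Pool.Agent.H316R3.Cog

abbrev X : Type := ↥(Icc (1:ℝ) (1 + 2 * Real.pi))

noncomputable def volX : Measure X := Measure.comap Subtype.val (volume : Measure ℝ)

instance : IsFiniteMeasure volX := by
  constructor
  unfold volX
  rw [comap_subtype_coe_apply measurableSet_Icc, image_univ, Subtype.range_coe]
  exact measure_Icc_lt_top

noncomputable def muK (K : ℕ) : Measure X :=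
  volX.withDensity (fun x => ENNReal.ofReal (P K x / (2 * Real.pi)))

theorem meas_dens (K : ℕ) : Measurable (fun x : X => ENNReal.ofReal (P K x / (2 * Real.pi))) := by
  apply Measurable.ennreal_ofReal
  exact ((P_cont K).measurable.comp measurable_subtype_coe).div_const _

theorem integral_muK (K : ℕ) (F : ℝ → ℂ) :
    ∫ x : X, F x ∂(muK K) = (1 / (2 * Real.pi)) * ∫ x in (1:ℝ)..(1 + 2 * Real.pi), F x * (P K x : ℂ) := by
  have hpi := Real.pi_pos
  unfold muK
  rw [integral_withDensity_eq_integral_toReal_smul (meas_dens K) (by simp)]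
  have h1 : ∀ x : X, (ENNReal.ofReal (P K x / (2 * Real.pi))).toReal • F x
      = (1 / (2 * Real.pi) : ℂ) * (F x * (P K x : ℂ)) := by
    intro x
    rw [ENNReal.toReal_ofReal (div_nonneg (P_nonneg K x) (by positivity)), Complex.real_smul]
    push_cast
    ring
  simp_rw [h1]
  unfold volX
  rw [integral_subtype_comap measurableSet_Icc (fun x : ℝ => (1 / (2 * Real.pi) : ℂ) * (F x * (P K x : ℂ))),
    MeasureTheory.integral_const_mul, intervalIntegral.integral_of_le (by linarith),
    integral_Icc_eq_integral_Ioc]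

theorem isProb (K : ℕ) : IsProbabilityMeasure (muK K) := by
  have hpi := Real.pi_pos
  constructor
  unfold muK
  rw [withDensity_apply _ MeasurableSet.univ, Measure.restrict_univ]
  have hcont : Continuous (fun x : X => P K x / (2 * Real.pi)) :=
    ((P_cont K).comp continuous_subtype_val).div_const _
  have hint : Integrable (fun x : X => P K x / (2 * Real.pi)) volX := by
    apply Continuous.integrable_of_hasCompactSupport hcont
    exact HasCompactSupport.of_compactSpace _
  rw [← ofReal_integral_eq_lintegral_ofReal hint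
    (Eventually.of_forall fun x => div_nonneg (P_nonneg K x) (by positivity))]
  have h0 := osc1_at_zero K
  unfold osc at h0
  simp only [ch_zero, one_mul] at h0
  have h1 : ∫ x : X, P K x / (2 * Real.pi) ∂volX = 1 := by
    unfold volX
    rw [integral_subtype_comap measurableSet_Icc (fun x : ℝ => P K x / (2 * Real.pi)),
      MeasureTheory.integral_div, integral_Icc_eq_integral_Ioc,
      ← intervalIntegral.integral_of_le (by linarith)]
    have h2 : ∫ x in (1:ℝ)..(1 + 2 * Real.pi), P K x = 2 * Real.pi := by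
      rw [intervalIntegral.integral_ofReal] at h0
      exact_mod_cast h0
    rw [h2]
    exact div_self (by positivity)
  rw [h1]
  simp

noncomputable def pK (K : ℕ) : ProbabilityMeasure X := ⟨muK K, isProb K⟩

theorem exists_limit : ∃ μ : ProbabilityMeasure X, ∀ F : C(X, ℂ),
    Tendsto (fun K => ∫ x, F x ∂(muK K)) (hyperfilter ℕ) (𝓝 (∫ x, F x ∂(μ : Measure X))) := by
  obtain ⟨μ, -, hμ⟩ := (isCompact_univ (X := ProbabilityMeasure X)).ultrafilter_le_nhds'
    ((hyperfilter ℕ).map pK) univ_mem
  refine ⟨μ, fun F => ?_⟩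
  have h : Tendsto pK (hyperfilter ℕ) (𝓝 μ) := hμ
  rw [ProbabilityMeasure.tendsto_iff_forall_integral_rclike_tendsto ℂ] at h
  exact h (BoundedContinuousFunction.mkOfCompact F)

noncomputable def lim : ProbabilityMeasure X := exists_limit.choose

noncomputable def mu : Measure X := (lim : Measure X)

instance : IsProbabilityMeasure mu := by unfold mu; infer_instance

theorem lim_spec (F : C(X, ℂ)) :
    Tendsto (fun K => ∫ x, F x ∂(muK K)) (hyperfilter ℕ) (𝓝 (∫ x, F x ∂mu)) :=
  exists_limit.choose_spec F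

/-- Cayley symbol as a continuous function on X -/
noncomputable def vX : C(X, ℂ) := ⟨fun x => v x, v_cont.comp continuous_subtype_val⟩
noncomputable def chX (l : ℝ) : C(X, ℂ) := ⟨fun x => ch l x, (ch_cont l).comp continuous_subtype_val⟩

theorem vX_decay (l : ℝ) (n : ℕ) (hn : 1 ≤ n) (hl : |l| ≤ n) :
    ‖∫ x, (vX ^ n * chX l) x ∂mu‖ ≤ 641 / 2^(Nat.log 16 n) := by
  have h := (lim_spec (vX ^ n * chX l)).norm
  refine le_of_tendsto h ?_
  have h2 : ∀ᶠ K in (hyperfilter ℕ : Filter ℕ), Nat.log 16 n + 1 ≤ K := by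
    have : (hyperfilter ℕ : Filter ℕ) ≤ atTop := by
      rw [← Nat.cofinite_eq_atTop]; exact hyperfilter_le_cofinite
    exact this (eventually_ge_atTop _)
  filter_upwards [h2] with K hK
  have h3 : ∫ x : X, (vX ^ n * chX l) x ∂(muK K)
      = ∫ x : X, (fun y : ℝ => v y ^ n * ch l y) x ∂(muK K) := rfl
  rw [h3, integral_muK K (fun y : ℝ => v y ^ n * ch l y)]
  have h4 := osc_decay n l hn hl K hK
  unfold osc at h4
  rw [norm_mul]
  have hpi := Real.pi_gt_three
  have h5 : ‖(1 / (2 * (Real.pi : ℂ)))‖ ≤ 1 := by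
    rw [norm_div, norm_mul, Complex.norm_real]
    simp only [norm_one, Real.norm_eq_abs, abs_of_pos Real.pi_pos, Complex.norm_ofNat]
    rw [div_le_one (by positivity)]
    linarith
  have h6 := mul_le_mul h5 h4 (norm_nonneg _) zero_le_one
  rw [one_mul] at h6
  exact h6

theorem vX_tendsto (l : ℝ) :
    Tendsto (fun n : ℕ => ∫ x, (vX ^ n * chX l) x ∂mu) atTop (𝓝 0) := by
  apply squeeze_zero_norm' (a := fun n : ℕ => 641 / 2^(Nat.log 16 n))
  · filter_upwards [eventually_ge_atTop 1, eventually_ge_atTop (Nat.ceil |l|)] with n hn1 hn2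
    exact vX_decay l n hn1 (Nat.ceil_le.1 hn2)
  · have h1 : Tendsto (fun n : ℕ => Nat.log 16 n) atTop atTop := by
      rw [tendsto_atTop_atTop]
      intro b
      refine ⟨16^b, fun n hn => ?_⟩
      have hpos : 0 < 16^b := by positivity
      exact (Nat.le_log_iff_pow_le (by norm_num) (by omega)).2 hn
    have h2 : Tendsto (fun k : ℕ => (641:ℝ) / 2^k) atTop (𝓝 0) := by
      have := (tendsto_pow_atTop_nhds_zero_of_lt_one (r := (1/2:ℝ)) (by norm_num) (by norm_num)).const_mul 641
      simp only [mul_zero] at this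
      refine this.congr ?_
      intro k
      rw [one_div, inv_pow]; rfl
    exact h2.comp h1

theorem ch_not (k : ℕ) : ∫ x, chX (N k) x ∂mu = 1/2 := by
  have h := lim_spec (chX (N k))
  have h2 : ∀ᶠ K in (hyperfilter ℕ : Filter ℕ), k + 1 ≤ K := by
    have : (hyperfilter ℕ : Filter ℕ) ≤ atTop := by
      rw [← Nat.cofinite_eq_atTop]; exact hyperfilter_le_cofinite
    exact this (eventually_ge_atTop _)
  have h3 : ∀ᶠ K in (hyperfilter ℕ : Filter ℕ), ∫ x, chX (N k) x ∂(muK K) = 1/2 := by
    filter_upwards [h2] with K hK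
    have h4 : ∫ x : X, chX (N k) x ∂(muK K) = ∫ x : X, (ch (N k)) x ∂(muK K) := rfl
    rw [h4, integral_muK K (ch (N k))]
    have h5 := osc1_at_N k K hK
    unfold osc at h5
    simp only [one_mul] at h5
    rw [h5]
    have : (Real.pi : ℂ) ≠ 0 := by exact_mod_cast Real.pi_ne_zero
    field_simp
  exact tendsto_nhds_unique h (tendsto_const_nhds.congr' (h3.mono fun _ h => h.symm))

end Pool.Agent.H316R3.Cog
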