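import Pool.Agent.H316R3.Cog.Meas

set_option autoImplicit false
open MeasureTheory Set Filter Topology intervalIntegral
open scoped ENNReal

namespace Pool.Agent.H316R3.Cog

abbrev H : Type := Lp ℂ 2 mu

noncomputable def M : C(X, ℂ) →L[ℂ] (H →L[ℂ] H) :=
  ((ContinuousLinearMap.mul ℂ ℂ).holderL mu ∞ 2 2).comp (ContinuousMap.toLp ∞ mu ℂ)

theorem M_apply (g : C(X, ℂ)) (f : H) : (M g f : X → ℂ) =ᵐ[mu] fun x => g x * f x := by
  have h1 := (ContinuousLinearMap.mul ℂ ℂ).coeFn_holder (r := 2) (ContinuousMap.toLp ∞ mu ℂ g) f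
  have h2 := ContinuousMap.coeFn_toLp (p := ∞) (𝕜 := ℂ) mu g
  have h3 : M g f = (ContinuousLinearMap.mul ℂ ℂ).holder 2 (ContinuousMap.toLp ∞ mu ℂ g) f := rfl
  rw [h3]
  filter_upwards [h1, h2] with x hx1 hx2
  rw [hx1, hx2]
  rfl

theorem M_one : M 1 = 1 := by
  ext f : 1
  apply Lp.ext
  filter_upwards [M_apply 1 f] with x hx
  rw [hx]; simp

theorem M_mul (g h : C(X, ℂ)) : M (g * h) = M g * M h := by
  ext f : 1
  apply Lp.ext
  filter_upwards [M_apply (g * h) f, M_apply g (M h f), M_apply h f] with x h1 h2 h3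
  rw [h1, mul_apply_eq_comp, h2, h3]
  simp [mul_assoc]

theorem M_pow (g : C(X, ℂ)) (n : ℕ) : M (g ^ n) = (M g) ^ n := by
  induction n with
  | zero => simpa using M_one
  | succ n ih => rw [pow_succ, M_mul, ih, pow_succ]

theorem M_norm (g : C(X, ℂ)) (c : ℝ) (hc : 0 ≤ c) (h : ∀ x, ‖g x‖ ≤ c) : ‖M g‖ ≤ c := by
  apply ContinuousLinearMap.opNorm_le_bound _ hc
  intro f
  apply Lp.norm_le_mul_norm_of_ae_le_mul
  filter_upwards [M_apply g f] with x hx
  rw [hx, norm_mul]
  exact mul_le_mul_of_nonneg_right (h x) (norm_nonneg _)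

noncomputable def toH (f : C(X, ℂ)) : H := ContinuousMap.toLp 2 mu ℂ f

theorem M_toH (g f : C(X, ℂ)) : M g (toH f) = toH (g * f) := by
  apply Lp.ext
  filter_upwards [M_apply g (toH f), ContinuousMap.coeFn_toLp (p := 2) (𝕜 := ℂ) mu f,
    ContinuousMap.coeFn_toLp (p := 2) (𝕜 := ℂ) mu (g * f)] with x h1 h2 h3
  unfold toH at *
  rw [h1, h2, h3]
  rfl

theorem chX_zero : chX 0 = 1 := by ext x; simp [chX, ch_zero]

theorem chX_add (l m : ℝ) : chX (l + m) = chX l * chX m := by
  ext x; simp [chX, ch_add]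

theorem chX_star (l : ℝ) : star (chX l) = chX (-l) := by
  ext x
  simp only [ContinuousMap.star_apply, chX, ContinuousMap.coe_mk, ch]
  rw [RCLike.star_def, ← Complex.exp_conj]
  congr 1
  simp

/-- generator symbol -/
noncomputable def hX : C(X, ℂ) := ⟨fun x => Complex.I * ((x : ℝ) : ℂ), by fun_prop⟩

theorem chX_exp (t : ℝ) : chX t = NormedSpace.exp (t • hX) := by
  ext x
  have h : (NormedSpace.exp (t • hX)) x = NormedSpace.exp ((t • hX) x) := by
    have := NormedSpace.map_exp (ContinuousMap.evalAlgHom ℂ ℂ x) (by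
      show Continuous (fun f : C(X, ℂ) => f x)
      exact continuous_eval_const x) (t • hX)
    exact this
  rw [h, ← Complex.exp_eq_exp_ℂ]
  simp only [chX, ContinuousMap.coe_mk, ch, ContinuousMap.smul_apply, hX]
  congr 1
  rw [Complex.real_smul]; push_cast; ring

theorem chX_hasDeriv (t : ℝ) : HasDerivAt chX (chX t * hX) t := by
  have h := hasDerivAt_exp_smul_const (𝕂 := ℝ) hX t
  have h2 : chX = fun u : ℝ => NormedSpace.exp (u • hX) := funext chX_exp
  rw [h2]
  exact h

noncomputable def T (t : ℝ) : H →L[ℂ] H := M (chX t)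

theorem T_zero : T 0 = 1 := by rw [T, chX_zero, M_one]

theorem T_add (s t : ℝ) : T (s + t) = T s * T t := by
  rw [T, chX_add, M_mul]; rfl

theorem T_norm (t : ℝ) : ‖T t‖ ≤ 1 := by
  apply M_norm _ _ zero_le_one
  intro x
  exact (ch_norm t x).le

theorem T_cont (x : H) : Continuous (fun t : ℝ => T t x) := by
  have h1 : Continuous chX := continuous_iff_continuousAt.2 fun t => (chX_hasDeriv t).continuousAt
  have h2 : Continuous (fun t => M (chX t)) := M.continuous.comp h1
  exact h2.clm_apply continuous_const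

/-- the resolvent symbol `1/(1-ix)` -/
noncomputable def rX : C(X, ℂ) :=
  ⟨fun x => (1 - Complex.I * ((x : ℝ) : ℂ))⁻¹, by
    apply Continuous.inv₀
    · fun_prop
    · intro x; exact one_sub_ne x⟩

theorem rX_spec : (1 - hX) * rX = 1 := by
  ext x
  simp only [ContinuousMap.mul_apply, ContinuousMap.sub_apply, ContinuousMap.one_apply, hX, rX,
    ContinuousMap.coe_mk]
  exact mul_inv_cancel₀ (one_sub_ne x)

theorem vX_eq : vX = 1 - (2:ℂ) • rX := by
  ext x
  simp [vX, v, rX]

theorem resolvent (z : H) :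
    ∫ t in Set.Ioi (0 : ℝ), ((Real.exp (-t) : ℝ) : ℂ) • T t z = M rX z := by
  have hd : ∀ t ∈ Ici (0:ℝ), HasDerivAt (fun t : ℝ => -(((Real.exp (-t) : ℝ) : ℂ) • M (chX t * rX) z))
      (((Real.exp (-t) : ℝ) : ℂ) • T t z) t := by
    intro t _
    have h1 : HasDerivAt (fun t : ℝ => ((Real.exp (-t) : ℝ) : ℂ)) (((-Real.exp (-t) : ℝ)) : ℂ) t := by
      have := ((hasDerivAt_neg t).exp).ofReal_comp
      simpa using this
    have h2 : HasDerivAt (fun t : ℝ => chX t * rX) (chX t * hX * rX) t :=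
      (chX_hasDeriv t).mul_const rX
    have h3 : HasDerivAt (fun t : ℝ => M (chX t * rX) z) (M (chX t * hX * rX) z) t := by
      exact ((((ContinuousLinearMap.apply ℂ H z).comp M).restrictScalars ℝ).hasFDerivAt).comp_hasDerivAt t h2
    have h4 := (h1.smul h3).neg
    refine HasDerivAt.congr_deriv h4 ?_
    have h6 : T t z = M (chX t * rX) z - M (chX t * hX * rX) z := by
      rw [T, ← sub_apply, ← map_sub]
      congr 2
      have h7 : chX t * rX - chX t * hX * rX = chX t * ((1 - hX) * rX) := by ring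
      rw [h7, rX_spec, mul_one]
    rw [h6, smul_sub]
    push_cast
    rw [neg_smul]
    abel
  have hint : IntegrableOn (fun t : ℝ => ((Real.exp (-t) : ℝ) : ℂ) • T t z) (Ioi 0) := by
    have hmeas : AEStronglyMeasurable (fun t : ℝ => ((Real.exp (-t) : ℝ) : ℂ) • T t z)
        (volume.restrict (Ioi 0)) := by
      apply Continuous.aestronglyMeasurable
      exact (Complex.continuous_ofReal.comp (Real.continuous_exp.comp continuous_neg)).smul (T_cont z)
    refine Integrable.mono' (g := fun t => Real.exp (-t) * ‖z‖) ?_ hmeas ?_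
    · exact (integrableOn_exp_neg_Ioi 0).mul_const _
    · refine Eventually.of_forall fun t => ?_
      rw [norm_smul, Complex.norm_real, Real.norm_eq_abs, abs_of_pos (Real.exp_pos _)]
      apply mul_le_mul_of_nonneg_left _ (Real.exp_pos _).le
      calc ‖T t z‖ ≤ ‖T t‖ * ‖z‖ := (T t).le_opNorm z
        _ ≤ 1 * ‖z‖ := mul_le_mul_of_nonneg_right (T_norm t) (norm_nonneg _)
        _ = ‖z‖ := one_mul _
  have hlim : Tendsto (fun t : ℝ => -(((Real.exp (-t) : ℝ) : ℂ) • M (chX t * rX) z)) atTop (𝓝 0) := by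
    apply squeeze_zero_norm (a := fun t : ℝ => Real.exp (-t) * (1 * ‖M rX z‖))
    · intro t
      rw [norm_neg, norm_smul, Complex.norm_real, Real.norm_eq_abs, abs_of_pos (Real.exp_pos _)]
      apply mul_le_mul_of_nonneg_left _ (Real.exp_pos _).le
      rw [M_mul, mul_apply_eq_comp]
      calc ‖M (chX t) (M rX z)‖ ≤ ‖M (chX t)‖ * ‖M rX z‖ := (M (chX t)).le_opNorm _
        _ ≤ 1 * ‖M rX z‖ := mul_le_mul_of_nonneg_right (T_norm t) (norm_nonneg _)
    · have := (Real.tendsto_exp_neg_atTop_nhds_zero).mul_const (1 * ‖M rX z‖)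
      simpa using this
  rw [integral_Ioi_of_hasDerivAt_of_tendsto' hd hint hlim]
  simp [chX_zero]

theorem cogen : (fun z : H => z - (2 : ℂ) •
              ∫ t in Set.Ioi (0 : ℝ), ((Real.exp (-t) : ℝ) : ℂ) • T t z) = fun z => M vX z := by
  funext z
  rw [resolvent, vX_eq, map_sub, M_one, map_smul]
  simp

theorem cogen_iter (n : ℕ) (z : H) : (fun z : H => z - (2 : ℂ) •
              ∫ t in Set.Ioi (0 : ℝ), ((Real.exp (-t) : ℝ) : ℂ) • T t z)^[n] z = M (vX ^ n) z := by
  rw [cogen]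
  induction n generalizing z with
  | zero => simp [M_one]
  | succ n ih =>
    rw [Function.iterate_succ_apply, ih, ← mul_apply_eq_comp, ← M_mul, ← pow_succ]

theorem vXpow_norm (n : ℕ) : ‖M (vX ^ n)‖ ≤ 1 := by
  apply M_norm _ _ zero_le_one
  intro x
  rw [ContinuousMap.pow_apply, norm_pow]
  have : ‖vX x‖ = 1 := v_norm x
  rw [this]; simp

/-- density of the characters -/
noncomputable def chAlg : StarSubalgebra ℂ C(X, ℂ) where
  toSubalgebra := Algebra.adjoin ℂ (range chX)
  star_mem' := by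
    change Algebra.adjoin ℂ (range chX) ≤ star (Algebra.adjoin ℂ (range chX))
    refine Algebra.adjoin_le ?_
    rintro - ⟨n, rfl⟩
    exact Algebra.subset_adjoin ⟨-n, (chX_star n).symm⟩

theorem chAlg_coe : Subalgebra.toSubmodule chAlg.toSubalgebra = Submodule.span ℂ (range chX) := by
  apply Algebra.adjoin_eq_span_of_subset
  refine Subset.trans ?_ Submodule.subset_span
  intro x hx
  refine Submonoid.closure_induction (fun _ => id) ⟨0, chX_zero⟩ ?_ hx
  rintro - - - - ⟨m, rfl⟩ ⟨n, rfl⟩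
  exact ⟨m + n, chX_add m n⟩

theorem chAlg_sep : chAlg.SeparatesPoints := by
  intro x y hxy
  refine ⟨_, ⟨chX (1/2), Algebra.subset_adjoin ⟨1/2, rfl⟩, rfl⟩, ?_⟩
  intro h
  apply hxy
  simp only [chX, ContinuousMap.coe_mk, ch] at h
  rw [Complex.exp_eq_exp_iff_exists_int] at h
  obtain ⟨n, hn⟩ := h
  have h1 : (1/2 : ℝ) * x = 1/2 * y + n * (2 * Real.pi) := by
    have h2 : Complex.I * (((1/2 : ℝ) * x : ℝ) : ℂ) = Complex.I * ((1/2 * y + n * (2 * Real.pi) : ℝ) : ℂ) := by
      rw [hn]; push_cast; ring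
    have h3 := mul_left_cancel₀ Complex.I_ne_zero h2
    exact_mod_cast h3
  have hx := x.2
  have hy := y.2
  have hpi := Real.pi_pos
  have hn0 : n = 0 := by
    have hlt : ((n:ℝ)) < 1 := by
      by_contra hcon
      push Not at hcon
      have : 2 * Real.pi ≤ n * (2 * Real.pi) := by nlinarith
      linarith [hx.2, hy.1]
    have hgt : (-1:ℝ) < n := by
      by_contra hcon
      push Not at hcon
      have : n * (2 * Real.pi) ≤ -(2 * Real.pi) := by nlinarith
      linarith [hx.1, hy.2]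
    have h4 : n < 1 := by exact_mod_cast hlt
    have h5 : -1 < n := by exact_mod_cast hgt
    omega
  rw [hn0] at h1
  apply Subtype.ext
  push_cast at h1
  linarith

theorem span_ch_dense : (Submodule.span ℂ (range (fun l : ℝ => toH (chX l)))).topologicalClosure = ⊤ := by
  have h1 : (Submodule.span ℂ (range chX)).topologicalClosure = ⊤ := by
    rw [← chAlg_coe]
    exact congr_arg (Subalgebra.toSubmodule <| StarSubalgebra.toSubalgebra ·)
      (ContinuousMap.starSubalgebra_topologicalClosure_eq_top_of_separatesPoints chAlg chAlg_sep)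
  have h2 := (ContinuousMap.toLp_denseRange ℂ mu ℂ (p := 2) (by simp)).topologicalClosure_map_submodule h1
  rw [Submodule.map_span] at h2
  have h3 : range (fun l : ℝ => toH (chX l)) = (ContinuousMap.toLp 2 mu ℂ : C(X, ℂ) →L[ℂ] Lp ℂ 2 mu) '' (range chX) := by
    ext y
    simp [toH]
  rw [h3]
  exact h2

theorem lin_tendsto {B : ℕ → H →L[ℂ] ℂ} {C : ℝ} (hB : ∀ n, ‖B n‖ ≤ C) {S : Set H}
    (hS : (Submodule.span ℂ S).topologicalClosure = ⊤)
    (h : ∀ x ∈ S, Tendsto (fun n => B n x) atTop (𝓝 0)) (x : H) :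
    Tendsto (fun n => B n x) atTop (𝓝 0) := by
  have hspan : ∀ y ∈ Submodule.span ℂ S, Tendsto (fun n => B n y) atTop (𝓝 0) := by
    intro y hy
    induction hy using Submodule.span_induction with
    | mem x hx => exact h x hx
    | zero => simp
    | add x y _ _ hx hy => simpa using hx.add hy
    | smul a x _ hx => simpa using hx.const_mul a
  have hC : 0 ≤ C := (norm_nonneg _).trans (hB 0)
  have hx : x ∈ closure (Submodule.span ℂ S : Set H) := by
    rw [← Submodule.topologicalClosure_coe, hS]; trivial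
  rw [Metric.tendsto_atTop]
  intro ε hε
  obtain ⟨y, hy, hxy⟩ := Metric.mem_closure_iff.1 hx (ε / (2 * (C + 1))) (by positivity)
  have h1 := hspan y hy
  rw [Metric.tendsto_atTop] at h1
  obtain ⟨N, hN⟩ := h1 (ε/2) (by positivity)
  refine ⟨N, fun n hn => ?_⟩
  have h2 := hN n hn
  rw [dist_zero_right] at h2 ⊢
  have h3 : B n x = B n (x - y) + B n y := by rw [map_sub]; ring
  rw [h3]
  have h4 : ‖B n (x - y)‖ ≤ C * (ε / (2 * (C + 1))) := by
    calc ‖B n (x - y)‖ ≤ ‖B n‖ * ‖x - y‖ := (B n).le_opNorm _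
      _ ≤ C * (ε / (2 * (C + 1))) := by
        apply mul_le_mul (hB n) _ (norm_nonneg _) hC
        rw [← dist_eq_norm]; exact hxy.le
  have h5 : C * (ε / (2 * (C + 1))) ≤ ε / 2 := by
    rw [mul_div_assoc', div_le_div_iff₀ (by positivity) (by positivity)]
    nlinarith
  calc ‖B n (x - y) + B n y‖ ≤ ‖B n (x - y)‖ + ‖B n y‖ := norm_add_le _ _
    _ < ε := by linarith

theorem base (l m : ℝ) : Tendsto (fun n : ℕ => inner ℂ (M (vX ^ n) (toH (chX l))) (toH (chX m)))
    atTop (𝓝 0) := by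
  have h := (vX_tendsto (l - m))
  have h2 : Tendsto (fun n : ℕ => (starRingEnd ℂ) (∫ x, (vX ^ n * chX (l - m)) x ∂mu)) atTop (𝓝 0) := by
    have := (Complex.continuous_conj.tendsto 0).comp h
    rw [map_zero] at this
    exact this
  refine h2.congr ?_
  intro n
  rw [M_toH]
  unfold toH
  rw [ContinuousMap.inner_toLp, ← integral_conj]
  apply MeasureTheory.integral_congr_ae
  refine Eventually.of_forall fun x => ?_
  simp only [ContinuousMap.mul_apply, map_mul]
  have h3 : (starRingEnd ℂ) (chX (l - m) x) = (starRingEnd ℂ) (chX l x) * chX m x := by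
    rw [sub_eq_add_neg, chX_add, ← chX_star]
    simp
  rw [h3]; ring

theorem weak (x y : H) : Tendsto (fun n : ℕ => inner ℂ (M (vX ^ n) x) y) atTop (𝓝 0) := by
  -- step 1 : y a character, x arbitrary
  have h1 : ∀ (m : ℝ) (x : H), Tendsto (fun n : ℕ => inner ℂ (toH (chX m)) (M (vX ^ n) x)) atTop (𝓝 0) := by
    intro m x
    have := lin_tendsto (B := fun n => (innerSL ℂ (toH (chX m))).comp (M (vX ^ n)))
      (C := ‖toH (chX m)‖) ?_ span_ch_dense ?_ x
    · simpa using this
    · intro n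
      refine (ContinuousLinearMap.opNorm_comp_le _ _).trans ?_
      rw [innerSL_apply_norm]
      have := vXpow_norm n
      calc ‖toH (chX m)‖ * ‖M (vX ^ n)‖ ≤ ‖toH (chX m)‖ * 1 :=
            mul_le_mul_of_nonneg_left this (norm_nonneg _)
        _ = _ := mul_one _
    · rintro _ ⟨l, rfl⟩
      have h2 := (Complex.continuous_conj.tendsto 0).comp (base l m)
      simp only [map_zero] at h2
      refine h2.congr ?_
      intro n
      simp
  have h3 := lin_tendsto (B := fun n => innerSL ℂ (M (vX ^ n) x)) (C := ‖x‖) ?_ span_ch_dense ?_ y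
  · simpa using h3
  · intro n
    rw [innerSL_apply_norm]
    calc ‖M (vX ^ n) x‖ ≤ ‖M (vX ^ n)‖ * ‖x‖ := (M (vX ^ n)).le_opNorm x
      _ ≤ 1 * ‖x‖ := mul_le_mul_of_nonneg_right (vXpow_norm n) (norm_nonneg _)
      _ = ‖x‖ := one_mul _
  · rintro _ ⟨m, rfl⟩
    have h2 := (Complex.continuous_conj.tendsto 0).comp (h1 m x)
    simp only [map_zero] at h2
    refine h2.congr ?_
    intro n
    simp

theorem not_weak : ¬ Tendsto (fun t : ℝ => inner ℂ (T t (toH (chX 0))) (toH (chX 0))) atTop (𝓝 0) := by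
  intro h
  have hN : Tendsto N atTop atTop := by
    have h1 : Tendsto (fun k : ℕ => (16:ℝ)^k) atTop atTop := tendsto_pow_atTop_atTop_of_one_lt (by norm_num)
    exact h1.comp (tendsto_add_atTop_nat 1)
  have h2 := h.comp hN
  have h3 : ∀ k, inner ℂ (T (N k) (toH (chX 0))) (toH (chX 0)) = (1/2 : ℂ) := by
    intro k
    rw [T, M_toH]
    unfold toH
    rw [ContinuousMap.inner_toLp, chX_zero, mul_one]
    have h4 : ∀ x, (1 : C(X, ℂ)) x * (starRingEnd ℂ) (chX (N k) x) = (starRingEnd ℂ) (chX (N k) x) := by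
      intro x; simp
    simp_rw [h4]
    rw [integral_conj, ch_not, show (1/2:ℂ) = ((1/2:ℝ):ℂ) by push_cast; rfl, Complex.conj_ofReal]
  have h5 : Tendsto (fun _ : ℕ => (1/2 : ℂ)) atTop (𝓝 0) := by
    refine h2.congr ?_
    intro k
    exact h3 k
  have h6 := tendsto_nhds_unique h5 tendsto_const_nhds
  norm_num at h6

end Pool.Agent.H316R3.Cog
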