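import Mathlib

set_option autoImplicit false
open MeasureTheory Set Filter Topology intervalIntegral

namespace Pool.Agent.H316R3.Cog

/-- First derivative test, decreasing frequency. -/
theorem vdc1 {G : ℝ → ℂ} {w w' : ℝ → ℝ} {a b l : ℝ} (hab : a ≤ b) (hl : 0 < l)
    (hG : ∀ x, HasDerivAt G (Complex.I * w x * G x) x)
    (hGn : ∀ x, ‖G x‖ ≤ 1)
    (hw : ∀ x, HasDerivAt w (w' x) x) (hw' : Continuous w')
    (hneg : ∀ x ∈ Icc a b, w' x ≤ 0)
    (hlow : (∀ x ∈ Icc a b, l ≤ w x) ∨ (∀ x ∈ Icc a b, w x ≤ -l)) :
    ‖∫ x in a..b, G x‖ ≤ 3 / l := by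
  have hne : ∀ x ∈ Icc a b, w x ≠ 0 := by
    intro x hx
    rcases hlow with h | h
    · have := h x hx; intro h0; linarith
    · have := h x hx; intro h0; linarith
  have habs : ∀ x ∈ Icc a b, l ≤ |w x| := by
    intro x hx
    rcases hlow with h | h
    · exact le_trans (h x hx) (le_abs_self _)
    · have := h x hx
      have h2 := neg_le_abs (w x)
      linarith
  have hGc : Continuous G := continuous_iff_continuousAt.2 fun x => (hG x).continuousAt
  have hwc : Continuous w := continuous_iff_continuousAt.2 fun x => (hw x).continuousAt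
  -- the primitive
  have hQ : ∀ x ∈ Icc a b, HasDerivAt (fun y => G y / (Complex.I * (w y : ℂ)))
      (G x + Complex.I * G x * (w' x : ℂ) / ((w x : ℂ))^2) x := by
    intro x hx
    have hwx : (w x : ℂ) ≠ 0 := by exact_mod_cast hne x hx
    have h1 : HasDerivAt (fun y : ℝ => (w y : ℂ)) (w' x : ℂ) x := (hw x).ofReal_comp
    have h2 : HasDerivAt (fun y : ℝ => Complex.I * (w y : ℂ)) (Complex.I * (w' x : ℂ)) x :=
      h1.const_mul Complex.I
    have h3 := (hG x).div h2 (by simp [hwx, Complex.I_ne_zero])
    refine HasDerivAt.congr_deriv h3 ?_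
    symm
    have hI : Complex.I ≠ 0 := Complex.I_ne_zero
    rw [mul_pow, Complex.I_sq, eq_div_iff (by simpa using pow_ne_zero 2 hwx), add_mul,
      div_mul_eq_mul_div, mul_div_assoc]
    rw [show (-1 * (w x : ℂ) ^ 2) / (w x : ℂ)^2 = -1 by
      rw [mul_div_assoc, div_self (pow_ne_zero 2 hwx), mul_one]]
    linear_combination (- G x * (w x : ℂ)^2) * Complex.I_sq
  have huIcc : uIcc a b = Icc a b := uIcc_of_le hab
  have hint1 : IntervalIntegrable G volume a b := hGc.intervalIntegrable _ _
  have hcont2 : ContinuousOn (fun x => Complex.I * G x * (w' x : ℂ) / ((w x : ℂ))^2) (uIcc a b) := by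
    rw [huIcc]
    apply ContinuousOn.div
    · exact (continuous_const.mul hGc |>.mul (Complex.continuous_ofReal.comp hw')).continuousOn
    · exact ((Complex.continuous_ofReal.comp hwc).pow 2).continuousOn
    · intro x hx
      have hwx : (w x : ℂ) ≠ 0 := by exact_mod_cast hne x hx
      exact pow_ne_zero 2 hwx
  have hint2 : IntervalIntegrable (fun x => Complex.I * G x * (w' x : ℂ) / ((w x : ℂ))^2) volume a b :=
    hcont2.intervalIntegrable
  have hFTC : ∫ x in a..b, (G x + Complex.I * G x * (w' x : ℂ) / ((w x : ℂ))^2)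
      = G b / (Complex.I * (w b : ℂ)) - G a / (Complex.I * (w a : ℂ)) := by
    apply integral_eq_sub_of_hasDerivAt
    · intro x hx
      rw [huIcc] at hx
      exact hQ x hx
    · exact hint1.add hint2
  rw [intervalIntegral.integral_add hint1 hint2] at hFTC
  have hG_eq : ∫ x in a..b, G x = G b / (Complex.I * (w b : ℂ)) - G a / (Complex.I * (w a : ℂ))
      - ∫ x in a..b, Complex.I * G x * (w' x : ℂ) / ((w x : ℂ))^2 := by
    rw [← hFTC]; ring
  have hb1 : ∀ x ∈ Icc a b, ‖G x / (Complex.I * (w x : ℂ))‖ ≤ 1 / l := by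
    intro x hx
    rw [norm_div, norm_mul, Complex.norm_I, one_mul, Complex.norm_real, Real.norm_eq_abs]
    have h1 := habs x hx
    exact div_le_div₀ zero_le_one (hGn x) hl h1
  -- bound on the second integral
  have hreal : ∫ x in a..b, (-(w' x) / (w x)^2) = 1 / w b - 1 / w a := by
    have hd : ∀ x ∈ uIcc a b, HasDerivAt (fun y => 1 / w y) (-(w' x) / (w x)^2) x := by
      intro x hx
      rw [huIcc] at hx
      have := (hw x).inv (hne x hx)
      simp only [one_div]
      exact this
    rw [integral_eq_sub_of_hasDerivAt hd]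
    apply ContinuousOn.intervalIntegrable
    rw [huIcc]
    apply ContinuousOn.div
    · exact hw'.neg.continuousOn
    · exact (hwc.pow 2).continuousOn
    · intro x hx
      exact pow_ne_zero 2 (hne x hx)
  have hb2 : ‖∫ x in a..b, Complex.I * G x * (w' x : ℂ) / ((w x : ℂ))^2‖ ≤ 1 / w b - 1 / w a := by
    rw [← hreal]
    apply norm_integral_le_of_norm_le hab
    · refine Eventually.of_forall ?_
      intro x hx
      have hx' : x ∈ Icc a b := Ioc_subset_Icc_self hx
      rw [norm_div, norm_mul, norm_mul, Complex.norm_I, one_mul, norm_pow, Complex.norm_real,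
        Complex.norm_real, Real.norm_eq_abs, Real.norm_eq_abs, sq_abs, abs_of_nonpos (hneg x hx')]
      have h1 : ‖G x‖ * -w' x ≤ -w' x := by
        have := hGn x
        have h2 := hneg x hx'
        nlinarith
      exact div_le_div_of_nonneg_right h1 (sq_nonneg _)
    · apply ContinuousOn.intervalIntegrable
      rw [huIcc]
      apply ContinuousOn.div
      · exact hw'.neg.continuousOn
      · exact (hwc.pow 2).continuousOn
      · intro x hx
        exact pow_ne_zero 2 (hne x hx)
  have hb3 : 1 / w b - 1 / w a ≤ 1 / l := by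
    have ha' : a ∈ Icc a b := left_mem_Icc.2 hab
    have hb' : b ∈ Icc a b := right_mem_Icc.2 hab
    rcases hlow with h | h
    · have h1 : 1 / w b ≤ 1 / l := one_div_le_one_div_of_le hl (h b hb')
      have h2 : 0 < 1 / w a := one_div_pos.2 (lt_of_lt_of_le hl (h a ha'))
      linarith
    · have h1 : 1 / w b < 0 := one_div_neg.2 (by have := h b hb'; linarith)
      have h2 : 1 / (-(w a)) ≤ 1 / l := one_div_le_one_div_of_le hl (by have := h a ha'; linarith)
      have h3 : 1 / (-(w a)) = - (1 / w a) := by rw [one_div_neg_eq_neg_one_div]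
      linarith
  rw [hG_eq]
  have h1 := norm_sub_le (G b / (Complex.I * (w b : ℂ)) - G a / (Complex.I * (w a : ℂ)))
    (∫ x in a..b, Complex.I * G x * (w' x : ℂ) / ((w x : ℂ))^2)
  have h2 := norm_sub_le (G b / (Complex.I * (w b : ℂ))) (G a / (Complex.I * (w a : ℂ)))
  have h3 := hb1 a (left_mem_Icc.2 hab)
  have h4 := hb1 b (right_mem_Icc.2 hab)
  have h5 : 3 / l = 1 / l + 1 / l + 1 / l := by ring
  linarith

/-- Second derivative test, decreasing frequency. -/
theorem vdc2 {G : ℝ → ℂ} {w w' : ℝ → ℝ} {a b r : ℝ} (hab : a ≤ b) (hr : 0 < r)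
    (hG : ∀ x, HasDerivAt G (Complex.I * w x * G x) x)
    (hGn : ∀ x, ‖G x‖ ≤ 1)
    (hw : ∀ x, HasDerivAt w (w' x) x) (hw' : Continuous w')
    (hneg : ∀ x ∈ Icc a b, w' x ≤ 0)
    (hdec : ∀ x y, a ≤ x → x ≤ y → y ≤ b → r * (y - x) ≤ w x - w y) :
    ‖∫ x in a..b, G x‖ ≤ 8 / Real.sqrt r := by
  have hGc : Continuous G := continuous_iff_continuousAt.2 fun x => (hG x).continuousAt
  have hwc : Continuous w := continuous_iff_continuousAt.2 fun x => (hw x).continuousAt
  obtain ⟨c, hc, hc1, hc2⟩ : ∃ c ∈ Icc a b, (∀ x, a ≤ x → x < c → r * (c - x) ≤ w x) ∧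
      (∀ x, c < x → x ≤ b → w x ≤ -(r * (x - c))) := by
    by_cases h1 : 0 ≤ w b
    · refine ⟨b, right_mem_Icc.2 hab, ?_, ?_⟩
      · intro x hx hxb
        have := hdec x b hx hxb.le le_rfl
        linarith
      · intro x hx hxb
        exact absurd hx (not_lt.2 hxb)
    · by_cases h2 : w a ≤ 0
      · refine ⟨a, left_mem_Icc.2 hab, ?_, ?_⟩
        · intro x hx hxb
          exact absurd hxb (not_lt.2 hx)
        · intro x hx hxb
          have := hdec a x le_rfl hx.le hxb
          linarith
      · push Not at h1 h2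
        have hivt := intermediate_value_Icc' hab (hwc.continuousOn (s := Icc a b))
        obtain ⟨c, hc, hwc0⟩ := hivt ⟨h1.le, h2.le⟩
        refine ⟨c, hc, ?_, ?_⟩
        · intro x hx hxc
          have := hdec x c hx hxc.le hc.2
          linarith
        · intro x hx hxb
          have := hdec c x hc.1 hx.le hxb
          linarith
  have hsr : 0 < Real.sqrt r := Real.sqrt_pos.2 hr
  have hsq : Real.sqrt r * Real.sqrt r = r := Real.mul_self_sqrt hr.le
  set η : ℝ := 1 / Real.sqrt r with hη
  have hηpos : 0 < η := one_div_pos.2 hsr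
  have hrη : r * η = Real.sqrt r := by
    rw [hη]; field_simp; nlinarith
  have hii : ∀ u v : ℝ, IntervalIntegrable G volume u v := fun u v => hGc.intervalIntegrable _ _
  -- short intervals
  have hshort : ∀ u v : ℝ, u ≤ v → v ≤ u + η → ‖∫ x in u..v, G x‖ ≤ η := by
    intro u v huv hv
    have := norm_integral_le_of_norm_le_const (a := u) (b := v) (f := G) (C := 1)
      (fun x _ => hGn x)
    rw [abs_of_nonneg (by linarith)] at this
    linarith
  -- left part
  have hleft : ‖∫ x in a..c, G x‖ ≤ 3 / Real.sqrt r + η := by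
    by_cases hp : c - η ≤ a
    · have := hshort a c hc.1 (by linarith)
      have h3 : 0 < 3 / Real.sqrt r := by positivity
      linarith
    · push Not at hp
      rw [← integral_add_adjacent_intervals (hii a (c - η)) (hii (c - η) c)]
      have h1 : ‖∫ x in a..(c - η), G x‖ ≤ 3 / Real.sqrt r := by
        apply vdc1 hp.le hsr hG hGn hw hw'
        · intro x hx
          exact hneg x ⟨hx.1, by linarith [hx.2, hc.2]⟩
        · left
          intro x hx
          have h2 := hc1 x hx.1 (by linarith [hx.2])
          have h3 : r * η ≤ r * (c - x) := by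
            apply mul_le_mul_of_nonneg_left _ hr.le
            linarith [hx.2]
          linarith
      have h2 := hshort (c - η) c (by linarith) (by linarith)
      exact (norm_add_le _ _).trans (add_le_add h1 h2)
  have hright : ‖∫ x in c..b, G x‖ ≤ 3 / Real.sqrt r + η := by
    by_cases hp : b ≤ c + η
    · have := hshort c b hc.2 hp
      have h3 : 0 < 3 / Real.sqrt r := by positivity
      linarith
    · push Not at hp
      rw [← integral_add_adjacent_intervals (hii c (c + η)) (hii (c + η) b)]
      have h1 : ‖∫ x in (c + η)..b, G x‖ ≤ 3 / Real.sqrt r := by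
        apply vdc1 hp.le hsr hG hGn hw hw'
        · intro x hx
          exact hneg x ⟨by linarith [hx.1, hc.1], hx.2⟩
        · right
          intro x hx
          have h2 := hc2 x (by linarith [hx.1]) hx.2
          have h3 : r * η ≤ r * (x - c) := by
            apply mul_le_mul_of_nonneg_left _ hr.le
            linarith [hx.1]
          linarith
      have h2 := hshort c (c + η) (by linarith) le_rfl
      rw [add_comm (3 / Real.sqrt r) η]
      exact (norm_add_le _ _).trans (add_le_add h2 h1)
  rw [← integral_add_adjacent_intervals (hii a c) (hii c b)]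
  have h8 : 8 / Real.sqrt r = (3 / Real.sqrt r + η) + (3 / Real.sqrt r + η) := by
    rw [hη]; ring
  rw [h8]
  exact (norm_add_le _ _).trans (add_le_add hleft hright)

end Pool.Agent.H316R3.Cog
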