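import Pool.Agent.H316R3.Cog.Osc

set_option autoImplicit false
open MeasureTheory Set Filter Topology intervalIntegral

namespace Pool.Agent.H316R3.Cog

noncomputable def N (j : ℕ) : ℝ := (16:ℝ)^(j+1)

/-- partial Riesz products -/
noncomputable def P : ℕ → ℝ → ℝ
  | 0, _ => 1
  | (K+1), x => P K x * (1 + Real.cos (N K * x))

theorem P_nonneg (K : ℕ) (x : ℝ) : 0 ≤ P K x := by
  induction K with
  | zero => simp [P]
  | succ K ih =>
    simp only [P]
    apply mul_nonneg ih
    have := Real.neg_one_le_cos (N K * x)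
    linarith

theorem P_cont (K : ℕ) : Continuous (P K) := by
  induction K with
  | zero => exact continuous_const
  | succ K ih =>
    have : P (K+1) = fun x => P K x * (1 + Real.cos (N K * x)) := rfl
    rw [this]
    fun_prop

/-- the character `x ↦ e^{ilx}` -/
noncomputable def ch (l x : ℝ) : ℂ := Complex.exp (Complex.I * ((l * x : ℝ) : ℂ))

theorem ch_norm (l x : ℝ) : ‖ch l x‖ = 1 := by
  rw [ch, mul_comm]; exact Complex.norm_exp_ofReal_mul_I _

theorem ch_cont (l : ℝ) : Continuous (ch l) := by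
  unfold ch; fun_prop

theorem ch_add (l m x : ℝ) : ch (l + m) x = ch l x * ch m x := by
  rw [ch, ch, ch, ← Complex.exp_add]
  congr 1
  push_cast; ring

theorem ch_zero (x : ℝ) : ch 0 x = 1 := by simp [ch]

theorem ch_cos (l m x : ℝ) : ch l x * ((Real.cos (m * x) : ℝ) : ℂ)
    = (1/2) * ch (l + m) x + (1/2) * ch (l - m) x := by
  rw [sub_eq_add_neg, ch_add, ch_add]
  have : ((Real.cos (m * x) : ℝ) : ℂ) = (ch m x + ch (-m) x) / 2 := by
    rw [Complex.ofReal_cos, Complex.cos, ch, ch]
    congr 2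
    · congr 1; ring
    · congr 1; push_cast; ring
  rw [this]; ring

noncomputable def osc (g : ℝ → ℂ) (l : ℝ) (K : ℕ) : ℂ :=
  ∫ x in (1:ℝ)..(1 + 2 * Real.pi), g x * ch l x * (P K x : ℂ)

theorem osc_succ {g : ℝ → ℂ} (hg : Continuous g) (l : ℝ) (K : ℕ) :
    osc g l (K+1) = osc g l K + (1/2) * osc g (l + N K) K + (1/2) * osc g (l - N K) K := by
  unfold osc
  have hc : ∀ m : ℝ, IntervalIntegrable (fun x => g x * ch m x * (P K x : ℂ)) volume 1 (1 + 2 * Real.pi) := by
    intro m
    apply Continuous.intervalIntegrable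
    exact (hg.mul (ch_cont m)).mul (Complex.continuous_ofReal.comp (P_cont K))
  rw [← intervalIntegral.integral_const_mul, ← intervalIntegral.integral_const_mul,
    ← intervalIntegral.integral_add (hc l) ((hc _).const_mul _),
    ← intervalIntegral.integral_add ((hc l).add ((hc _).const_mul _)) ((hc _).const_mul _)]
  apply intervalIntegral.integral_congr
  intro x _
  simp only [P]
  push_cast
  have := ch_cos l (N K) x
  push_cast at this
  linear_combination (g x * (P K x : ℂ)) * this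

theorem osc_succ_norm {g : ℝ → ℂ} (hg : Continuous g) (l : ℝ) (K : ℕ) :
    ‖osc g l (K+1) - osc g l K‖ ≤ (1/2) * ‖osc g (l + N K) K‖ + (1/2) * ‖osc g (l - N K) K‖ := by
  rw [osc_succ hg]
  have : osc g l K + (1/2) * osc g (l + N K) K + (1/2) * osc g (l - N K) K - osc g l K
    = (1/2) * osc g (l + N K) K + (1/2) * osc g (l - N K) K := by ring
  rw [this]
  refine (norm_add_le _ _).trans ?_
  rw [norm_mul, norm_mul]
  norm_num

theorem osc_bd1 {g : ℝ → ℂ} (hg : Continuous g) {C : ℝ} (h0 : ∀ l, ‖osc g l 0‖ ≤ C) :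
    ∀ (K : ℕ) (l : ℝ), ‖osc g l K‖ ≤ 2^K * C := by
  intro K
  induction K with
  | zero => intro l; simpa using h0 l
  | succ K ih =>
    intro l
    have h1 := osc_succ_norm hg l K
    have h2 := ih l
    have h3 := ih (l + N K)
    have h4 := ih (l - N K)
    have h5 : ‖osc g l (K+1)‖ ≤ ‖osc g l (K+1) - osc g l K‖ + ‖osc g l K‖ := by
      have := norm_add_le (osc g l (K+1) - osc g l K) (osc g l K)
      simpa using this
    rw [pow_succ]
    linarith

noncomputable def s (K : ℕ) : ℝ := (16:ℝ)^(K+1) / 15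

theorem s_succ (K : ℕ) : s (K+1) = s K + N K := by
  unfold s N; ring

theorem s_pos (K : ℕ) : 0 < s K := by unfold s; positivity

theorem N_pos (K : ℕ) : 0 < N K := by unfold N; positivity

theorem N_eq (K : ℕ) : N K = 15 * s K := by unfold s N; ring

theorem osc_bd2 {g : ℝ → ℂ} (hg : Continuous g) {D : ℝ} (hD : 0 < D)
    (h0 : ∀ l, D ≤ |l| → ‖osc g l 0‖ ≤ 6 / |l|) :
    ∀ (K : ℕ) (l : ℝ), D + s K ≤ |l| → ‖osc g l K‖ ≤ 2^K * (6 / (|l| - s K)) := by
  intro K
  induction K with
  | zero =>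
    intro l hl
    have hs := s_pos 0
    have h1 := h0 l (by linarith)
    have h2 : 6 / |l| ≤ 6 / (|l| - s 0) := by
      apply div_le_div_of_nonneg_left (by norm_num) (by linarith) (by linarith)
    simp only [pow_zero, one_mul]
    linarith
  | succ K ih =>
    intro l hl
    rw [s_succ] at hl ⊢
    have hN := N_pos K
    have hs := s_pos K
    have h1 := osc_succ_norm hg l K
    have hp : |l| - N K ≤ |l + N K| := by
      have := abs_sub_abs_le_abs_sub l (-(N K))
      rw [abs_neg, abs_of_pos hN, sub_neg_eq_add] at this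
      exact this
    have hm : |l| - N K ≤ |l - N K| := by
      have := abs_sub_abs_le_abs_sub l (N K)
      rw [abs_of_pos hN] at this
      exact this
    have key : ∀ m : ℝ, |l| - N K ≤ |m| → ‖osc g m K‖ ≤ 2^K * (6 / (|l| - (s K + N K))) := by
      intro m hm
      refine (ih m (by linarith)).trans ?_
      apply mul_le_mul_of_nonneg_left _ (by positivity)
      apply div_le_div_of_nonneg_left (by norm_num) (by linarith) (by linarith)
    have h2 := key l (by linarith)
    have h3 := key (l + N K) hp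
    have h4 := key (l - N K) hm
    have h5 : ‖osc g l (K+1)‖ ≤ ‖osc g l (K+1) - osc g l K‖ + ‖osc g l K‖ := by
      have := norm_add_le (osc g l (K+1) - osc g l K) (osc g l K)
      simpa using this
    rw [pow_succ]
    linarith

/-- the Cayley symbol -/
noncomputable def v (x : ℝ) : ℂ := 1 - 2 * (1 - Complex.I * (x : ℂ))⁻¹

theorem one_sub_ne (x : ℝ) : (1 - Complex.I * (x : ℂ)) ≠ 0 := by
  intro h
  have := congrArg Complex.re h
  simp at this

theorem v_hasDeriv (x : ℝ) :
    HasDerivAt v (Complex.I * ((2 / (1 + x^2) : ℝ) : ℂ) * v x) x := by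
  have h0 : HasDerivAt (fun y : ℝ => (y : ℂ)) 1 x := by
    simpa using (hasDerivAt_id x).ofReal_comp
  have h1 : HasDerivAt (fun y : ℝ => 1 - Complex.I * (y : ℂ)) (-(Complex.I * 1)) x := by
    simpa using (h0.const_mul Complex.I).const_sub 1
  have h2 := (h1.inv (one_sub_ne x)).const_mul 2 |>.const_sub 1
  refine HasDerivAt.congr_deriv h2 ?_
  unfold v
  have hne := one_sub_ne x
  have hne2 : (1 + Complex.I * (x : ℂ)) ≠ 0 := by
    intro h
    have := congrArg Complex.re h
    simp at this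
  have hq : ((1 + x^2 : ℝ) : ℂ) = (1 - Complex.I * x) * (1 + Complex.I * x) := by
    push_cast
    linear_combination (x:ℂ)^2 * Complex.I_sq
  have hq' : ((2 / (1 + x^2) : ℝ) : ℂ) = 2 / ((1 - Complex.I * x) * (1 + Complex.I * x)) := by
    rw [← hq]; push_cast; rfl
  rw [hq']
  field_simp
  ring_nf

theorem v_norm (x : ℝ) : ‖v x‖ = 1 := by
  have hne := one_sub_ne x
  have h1 : v x = -((1 + Complex.I * x) / (1 - Complex.I * x)) := by
    unfold v; field_simp; ring
  rw [h1, norm_neg, norm_div]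
  have h2 : (1 + Complex.I * (x:ℂ)) = (starRingEnd ℂ) (1 - Complex.I * x) := by
    simp [Complex.conj_ofReal]
  rw [h2, RCLike.norm_conj]
  exact div_self (norm_ne_zero_iff.2 hne)

theorem v_cont : Continuous v := continuous_iff_continuousAt.2 fun x => (v_hasDeriv x).continuousAt

theorem pi_bd : 1 + 2 * Real.pi ≤ 8 := by
  have := Real.pi_lt_d2
  linarith

theorem ch_hasDeriv (l x : ℝ) : HasDerivAt (ch l) (Complex.I * (l : ℂ) * ch l x) x := by
  unfold ch
  have h1 : HasDerivAt (fun y : ℝ => ((l * y : ℝ) : ℂ)) (l : ℂ) x := by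
    have := ((hasDerivAt_id x).const_mul l).ofReal_comp
    simpa using this
  have h2 := (h1.const_mul Complex.I).cexp
  refine HasDerivAt.congr_deriv h2 ?_
  ring

section G
variable (n : ℕ) (l : ℝ)

theorem G_hasDeriv (x : ℝ) : HasDerivAt (fun x => v x ^ n * ch l x)
    (Complex.I * ((2 * n / (1 + x^2) + l : ℝ) : ℂ) * (v x ^ n * ch l x)) x := by
  have h1 := (v_hasDeriv x).pow n
  have h2 := h1.mul (ch_hasDeriv l x)
  refine HasDerivAt.congr_deriv h2 ?_
  rcases n with _ | n
  · simp
  · push_cast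
    simp only [Nat.add_sub_cancel, Pi.pow_apply]
    rw [pow_succ]
    ring

theorem G_norm (x : ℝ) : ‖v x ^ n * ch l x‖ ≤ 1 := by
  rw [norm_mul, norm_pow, v_norm, ch_norm]; simp

theorem w_hasDeriv (x : ℝ) : HasDerivAt (fun x : ℝ => 2 * (n:ℝ) / (1 + x^2) + l)
    (- (4 * n * x) / (1 + x^2)^2) x := by
  have h0 : (1 + x^2) ≠ 0 := by positivity
  have h1 : HasDerivAt (fun x : ℝ => 1 + x^2) (2 * x) x := by
    simpa using (hasDerivAt_pow 2 x).const_add 1
  have h2 := ((hasDerivAt_const x (2 * (n:ℝ))).div h1 h0).add_const l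
  refine HasDerivAt.congr_deriv h2 ?_
  ring

theorem w'_cont : Continuous (fun x : ℝ => - (4 * (n:ℝ) * x) / (1 + x^2)^2) := by
  apply Continuous.div
  · fun_prop
  · fun_prop
  · intro x; positivity

theorem osc0_bd1 (hn : 1 ≤ n) : ‖osc (fun x => v x ^ n) l 0‖ ≤ 320 / Real.sqrt n := by
  unfold osc
  simp only [P, Complex.ofReal_one, mul_one]
  have hn' : (1:ℝ) ≤ n := by exact_mod_cast hn
  have hpi := Real.pi_pos
  have h := vdc2 (G := fun x => v x ^ n * ch l x) (w := fun x : ℝ => 2 * (n:ℝ) / (1 + x^2) + l)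
    (w' := fun x : ℝ => - (4 * (n:ℝ) * x) / (1 + x^2)^2) (a := 1) (b := 1 + 2 * Real.pi)
    (r := n / 1600) (by linarith) (by positivity) (G_hasDeriv n l) (G_norm n l) (w_hasDeriv n l)
    (w'_cont n) ?_ ?_
  · have hs : Real.sqrt (n / 1600) = Real.sqrt n / 40 := by
      rw [Real.sqrt_div (by positivity)]
      congr 1
      rw [show (1600:ℝ) = 40^2 by norm_num, Real.sqrt_sq (by norm_num)]
    rw [hs] at h
    have h3 : 8 / (Real.sqrt n / 40) = 320 / Real.sqrt n := by
      have : Real.sqrt n ≠ 0 := by positivity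
      field_simp
      norm_num
    rw [h3] at h
    exact h
  · intro x hx
    have : 0 ≤ 4 * (n:ℝ) * x := by have := hx.1; positivity
    apply div_nonpos_of_nonpos_of_nonneg
    · linarith
    · positivity
  · intro x y hx hxy hy
    have hy8 : y ≤ 8 := hy.trans pi_bd
    have hx8 : x ≤ 8 := hxy.trans hy8
    have e : 2 * (n:ℝ) / (1 + x^2) + l - (2 * (n:ℝ) / (1 + y^2) + l)
        = n * (y - x) * (2 * (x + y) / ((1 + x^2) * (1 + y^2))) := by
      have h1 : (1 + x^2) ≠ 0 := by positivity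
      have h2 : (1 + y^2) ≠ 0 := by positivity
      field_simp
      ring
    show (n:ℝ) / 1600 * (y - x) ≤ 2 * (n:ℝ) / (1 + x^2) + l - (2 * (n:ℝ) / (1 + y^2) + l)
    rw [e]
    have h3 : (1:ℝ)/1600 ≤ 2 * (x + y) / ((1 + x^2) * (1 + y^2)) := by
      rw [div_le_div_iff₀ (by norm_num) (by positivity)]
      have hx2 : 1 + x^2 ≤ 65 := by nlinarith
      have hy2 : 1 + y^2 ≤ 65 := by nlinarith
      have : (1 + x^2) * (1 + y^2) ≤ 65 * 65 := by
        apply mul_le_mul hx2 hy2 (by positivity) (by norm_num)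
      nlinarith
    have h4 : 0 ≤ (n:ℝ) * (y - x) := mul_nonneg (by positivity) (by linarith)
    calc (n:ℝ) / 1600 * (y - x) = n * (y - x) * (1/1600) := by ring
      _ ≤ _ := mul_le_mul_of_nonneg_left h3 h4

theorem osc0_bd2 (hn : 1 ≤ n) (hl : 4 * (n:ℝ) ≤ |l|) : ‖osc (fun x => v x ^ n) l 0‖ ≤ 6 / |l| := by
  unfold osc
  simp only [P, Complex.ofReal_one, mul_one]
  have hn' : (1:ℝ) ≤ n := by exact_mod_cast hn
  have hpi := Real.pi_pos
  have hlpos : 0 < |l| := by linarith
  have h := vdc1 (G := fun x => v x ^ n * ch l x) (w := fun x : ℝ => 2 * (n:ℝ) / (1 + x^2) + l)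
    (w' := fun x : ℝ => - (4 * (n:ℝ) * x) / (1 + x^2)^2) (a := 1) (b := 1 + 2 * Real.pi)
    (l := |l|/2) (by linarith) (by positivity) (G_hasDeriv n l) (G_norm n l) (w_hasDeriv n l)
    (w'_cont n) ?_ ?_
  · have h3 : 3 / (|l| / 2) = 6 / |l| := by
      field_simp; norm_num
    rw [h3] at h
    exact h
  · intro x hx
    have : 0 ≤ 4 * (n:ℝ) * x := by have := hx.1; positivity
    apply div_nonpos_of_nonpos_of_nonneg
    · linarith
    · positivity
  · rcases le_total 0 l with h0 | h0
    · left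
      intro x hx
      rw [abs_of_nonneg h0]
      have : 0 ≤ 2 * (n:ℝ) / (1 + x^2) := by positivity
      linarith
    · right
      intro x hx
      rw [abs_of_nonpos h0] at hl ⊢
      have : 2 * (n:ℝ) / (1 + x^2) ≤ n := by
        rw [div_le_iff₀ (by positivity)]
        have h1 := hx.1
        have h2 : 1 ≤ x^2 := by nlinarith
        nlinarith [mul_nonneg (by linarith : (0:ℝ) ≤ n) (sub_nonneg.2 h2)]
      linarith

end G

/-- the decay estimate -/
theorem osc_decay (n : ℕ) (l : ℝ) (hn : 1 ≤ n) (hl : |l| ≤ n) (K : ℕ) (hK : Nat.log 16 n + 1 ≤ K) :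
    ‖osc (fun x => v x ^ n) l K‖ ≤ 641 / 2^(Nat.log 16 n) := by
  set k := Nat.log 16 n with hk
  have hn' : (1:ℝ) ≤ n := by exact_mod_cast hn
  have hkl : (16:ℝ)^k ≤ n := by
    have := Nat.pow_log_le_self 16 (x := n) (by omega)
    exact_mod_cast this
  have hku : (n:ℝ) < (16:ℝ)^(k+1) := by
    have := Nat.lt_pow_succ_log_self (b := 16) (by norm_num) n
    exact_mod_cast this
  have hg : Continuous (fun x => v x ^ n) := v_cont.pow n
  have hb1 := osc_bd1 hg (fun l => osc0_bd1 n l hn)
  have hb2 := osc_bd2 hg (D := 4 * n) (by positivity) (fun l hl => osc0_bd2 n l hn hl)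
  have hstart : ‖osc (fun x => v x ^ n) l (k+1)‖ ≤ 640 / 2^k := by
    refine (hb1 (k+1) l).trans ?_
    have hs : (4:ℝ)^k ≤ Real.sqrt n := by
      apply Real.le_sqrt_of_sq_le
      rw [← pow_mul, mul_comm, pow_mul]
      norm_num
      exact hkl
    have h4 : (0:ℝ) < 4^k := by positivity
    calc (2:ℝ)^(k+1) * (320 / Real.sqrt n) ≤ 2^(k+1) * (320 / 4^k) := by
          apply mul_le_mul_of_nonneg_left _ (by positivity)
          apply div_le_div_of_nonneg_left (by norm_num) h4 hs
      _ = 640 / 2^k := by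
          rw [show (4:ℝ)^k = 2^k * 2^k by rw [← mul_pow]; norm_num]
          rw [pow_succ]
          field_simp
          norm_num
  have hstep : ∀ j, k + 1 ≤ j → ‖osc (fun x => v x ^ n) l (j+1) - osc (fun x => v x ^ n) l j‖
      ≤ (3/4) * (1/8)^j := by
    intro j hj
    have hNj : (n:ℝ) ≤ N j / 16 := by
      have : (16:ℝ)^(k+1) ≤ 16^j := pow_le_pow_right₀ (by norm_num) hj
      unfold N
      rw [pow_succ]
      linarith
    have hsN := N_eq j
    have hspos := s_pos j
    have h1 := osc_succ_norm hg l j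
    have hNpos := N_pos j
    have hp : N j - |l| ≤ |l + N j| := by
      have := abs_sub_abs_le_abs_sub (N j) (-l)
      rw [abs_neg, abs_of_pos hNpos, sub_neg_eq_add, add_comm (N j) l] at this
      exact this
    have hm : N j - |l| ≤ |l - N j| := by
      have := abs_sub_abs_le_abs_sub (N j) l
      rw [abs_of_pos hNpos, abs_sub_comm] at this
      exact this
    have key : ∀ m : ℝ, N j - |l| ≤ |m| → ‖osc (fun x => v x ^ n) m j‖ ≤ (3/4) * (1/8)^j := by
      intro m hm
      refine (hb2 j m (by linarith)).trans ?_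
      have h5 : N j / 2 ≤ |m| - s j := by linarith
      calc (2:ℝ)^j * (6 / (|m| - s j)) ≤ 2^j * (6 / (N j / 2)) := by
            apply mul_le_mul_of_nonneg_left _ (by positivity)
            apply div_le_div_of_nonneg_left (by norm_num) (by linarith) h5
        _ = (3/4) * (1/8)^j := by
            unfold N
            rw [pow_succ, show (16:ℝ)^j = 2^j * 8^j by rw [← mul_pow]; norm_num, one_div, inv_pow]
            field_simp
            norm_num
    have h3 := key (l + N j) hp
    have h4 := key (l - N j) hm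
    linarith
  have hind : ∀ d : ℕ, ‖osc (fun x => v x ^ n) l (k+1+d)‖ ≤ 640 / 2^k + (1/8)^(k+1) - (1/8)^(k+1+d) := by
    intro d
    induction d with
    | zero => simpa using hstart
    | succ d ih =>
      have h1 := hstep (k+1+d) (by omega)
      have h5 : ‖osc (fun x => v x ^ n) l (k+1+d+1)‖ ≤ ‖osc (fun x => v x ^ n) l (k+1+d+1) - osc (fun x => v x ^ n) l (k+1+d)‖ + ‖osc (fun x => v x ^ n) l (k+1+d)‖ := by
        have := norm_add_le (osc (fun x => v x ^ n) l (k+1+d+1) - osc (fun x => v x ^ n) l (k+1+d)) (osc (fun x => v x ^ n) l (k+1+d))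
        simpa using this
      rw [← add_assoc]
      have h6 : (1/8:ℝ)^(k+1+d+1) = (1/8)^(k+1+d) / 8 := by rw [pow_succ]; ring
      rw [h6]
      have h7 : (0:ℝ) < (1/8)^(k+1+d) := by positivity
      linarith
  obtain ⟨d, rfl⟩ := Nat.exists_eq_add_of_le hK
  refine (hind d).trans ?_
  have h7 : (0:ℝ) < (1/8)^(k+1+d) := by positivity
  have h8 : (1/8:ℝ)^(k+1) ≤ 1/2^k := by
    have h9 : (1/8:ℝ)^(k+1) ≤ (1/8)^k := pow_le_pow_of_le_one (by norm_num) (by norm_num) (by omega)
    have h10 : (1/8:ℝ)^k ≤ (1/2)^k := pow_le_pow_left₀ (by norm_num) (by norm_num) k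
    calc (1/8:ℝ)^(k+1) ≤ (1/2)^k := h9.trans h10
      _ = 1/2^k := by rw [one_div, one_div, inv_pow]
  have h11 : (641:ℝ)/2^k = 640/2^k + 1/2^k := by ring
  linarith

/-! Exact computations for `g = 1` -/

theorem osc1_zero_int (m : ℤ) (hm : m ≠ 0) : osc (fun _ => 1) (m:ℝ) 0 = 0 := by
  unfold osc
  simp only [P, Complex.ofReal_one, mul_one, one_mul]
  have hc : (Complex.I * (m:ℂ)) ≠ 0 := mul_ne_zero Complex.I_ne_zero (by exact_mod_cast hm)
  have h : ∫ x in (1:ℝ)..(1 + 2 * Real.pi), ch m x = ∫ x in (1:ℝ)..(1 + 2 * Real.pi), Complex.exp ((Complex.I * (m:ℂ)) * (x:ℂ)) := by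
    apply intervalIntegral.integral_congr
    intro x _
    simp only [ch]
    congr 1
    push_cast
    ring
  rw [h, integral_exp_mul_complex hc]
  have : Complex.exp (Complex.I * (m:ℂ) * ((1 + 2 * Real.pi : ℝ) : ℂ)) = Complex.exp (Complex.I * (m:ℂ) * ((1:ℝ):ℂ)) := by
    rw [Complex.exp_eq_exp_iff_exists_int]
    refine ⟨m, ?_⟩
    push_cast
    ring
  rw [this]
  simp

theorem osc1_vanish (K : ℕ) : ∀ (m : ℤ), s K < |(m:ℝ)| → osc (fun _ => 1) (m:ℝ) K = 0 := by
  induction K with
  | zero =>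
    intro m hm
    apply osc1_zero_int
    rintro rfl
    simp at hm
    have := s_pos 0
    linarith
  | succ K ih =>
    intro m hm
    rw [s_succ] at hm
    have hNpos := N_pos K
    have hN : N K = (((16:ℤ)^(K+1) : ℤ) : ℝ) := by unfold N; push_cast; rfl
    rw [osc_succ continuous_const, ih m (by linarith)]
    have h1 : (m:ℝ) + N K = ((m + 16^(K+1) : ℤ) : ℝ) := by rw [hN]; push_cast; rfl
    have h2 : (m:ℝ) - N K = ((m - 16^(K+1) : ℤ) : ℝ) := by rw [hN]; push_cast; rfl
    have hp : |(m:ℝ)| - N K ≤ |(m:ℝ) + N K| := by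
      have := abs_sub_abs_le_abs_sub (m:ℝ) (-(N K))
      rw [abs_neg, abs_of_pos hNpos, sub_neg_eq_add] at this
      exact this
    have hq : |(m:ℝ)| - N K ≤ |(m:ℝ) - N K| := by
      have := abs_sub_abs_le_abs_sub (m:ℝ) (N K)
      rw [abs_of_pos hNpos] at this
      exact this
    rw [h1] at hp ⊢
    rw [h2] at hq ⊢
    rw [ih _ (by linarith), ih _ (by linarith)]
    simp

theorem osc1_at_zero (K : ℕ) : osc (fun _ => 1) 0 K = 2 * Real.pi := by
  induction K with
  | zero =>
    unfold osc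
    simp [P, ch_zero]
  | succ K ih =>
    rw [osc_succ continuous_const, ih]
    have hNpos := N_pos K
    have hN : N K = (((16:ℤ)^(K+1) : ℤ) : ℝ) := by unfold N; push_cast; rfl
    have hsN := N_eq K
    have hspos := s_pos K
    have h1 : (0:ℝ) + N K = (((16:ℤ)^(K+1) : ℤ) : ℝ) := by rw [hN]; simp
    have h2 : (0:ℝ) - N K = ((-(16:ℤ)^(K+1) : ℤ) : ℝ) := by rw [hN]; push_cast; ring
    have e1 : osc (fun _ => 1) (0 + N K) K = 0 := by
      rw [h1]; apply osc1_vanish
      rw [← hN, abs_of_pos hNpos]; linarith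
    have e2 : osc (fun _ => 1) (0 - N K) K = 0 := by
      rw [h2]; apply osc1_vanish
      rw [← h2, zero_sub, abs_neg, abs_of_pos hNpos]; linarith
    rw [e1, e2]; ring

theorem osc1_at_N (k : ℕ) : ∀ K, k + 1 ≤ K → osc (fun _ => 1) (N k) K = Real.pi := by
  intro K hK
  obtain ⟨d, rfl⟩ := Nat.exists_eq_add_of_le hK
  clear hK
  have hNk : N k = (((16:ℤ)^(k+1) : ℤ) : ℝ) := by unfold N; push_cast; rfl
  have hNkpos := N_pos k
  have hskpos := s_pos k
  have hsNk := N_eq k
  induction d with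
  | zero =>
    rw [add_zero, osc_succ continuous_const, sub_self, osc1_at_zero]
    have e1 : osc (fun _ => 1) (N k) k = 0 := by
      rw [hNk]; apply osc1_vanish
      rw [← hNk, abs_of_pos hNkpos]; linarith
    have e2 : osc (fun _ => 1) (N k + N k) k = 0 := by
      have : N k + N k = ((2 * (16:ℤ)^(k+1) : ℤ) : ℝ) := by rw [hNk]; push_cast; ring
      rw [this]; apply osc1_vanish
      rw [← this, abs_of_pos (by linarith)]; linarith
    rw [e1, e2]; ring
  | succ d ih =>
    rw [← add_assoc, osc_succ continuous_const, ih]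
    set K := k + 1 + d with hKdef
    have hNpos := N_pos K
    have hN : N K = (((16:ℤ)^(K+1) : ℤ) : ℝ) := by unfold N; push_cast; rfl
    have hsN := N_eq K
    have hspos := s_pos K
    have hle : N k ≤ N K / 16 := by
      have : (16:ℝ)^(k+1) ≤ 16^K := pow_le_pow_right₀ (by norm_num) (by omega)
      unfold N
      rw [pow_succ _ K]
      linarith
    have h1 : N k + N K = (((16:ℤ)^(k+1) + 16^(K+1) : ℤ) : ℝ) := by rw [hNk, hN]; push_cast; rfl
    have h2 : N k - N K = (((16:ℤ)^(k+1) - 16^(K+1) : ℤ) : ℝ) := by rw [hNk, hN]; push_cast; rfl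
    have e1 : osc (fun _ => 1) (N k + N K) K = 0 := by
      rw [h1]; apply osc1_vanish
      rw [← h1, abs_of_pos (by linarith)]; linarith
    have e2 : osc (fun _ => 1) (N k - N K) K = 0 := by
      rw [h2]; apply osc1_vanish
      rw [← h2, abs_of_neg (by linarith)]; linarith
    rw [e1, e2]; ring

end Pool.Agent.H316R3.Cog
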